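import Pool.Agent.K1H90.CC.Ch
import Pool.Agent.K1H79.RF.Stm

/-! # T1 of K1H79/RF: the statements `S_A1`, `S_A2` -/

set_option autoImplicit false

open NumberField IsDedekindDomain CohNT
open scoped Classical nonZeroDivisors

namespace Pool.Agent.K1H90.CC

open Pool.Agent.K1H79.RF

theorem t_A1 : S_A1 := by
  intro F _ _
  obtain ⟨C, hC⟩ := all_primes F
  refine ⟨C, fun s hs hs2 => ?_⟩
  have h1 := hC s hs hs2
  have h2 : Sm F (fun _ => True) s = ∑' v : Pr F, ((Ideal.absNorm v.asIdeal : ℕ) : ℝ) ^ (-s) := by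
    unfold Sm
    exact tsum_congr fun v => if_pos trivial
  rw [h2]
  exact h1

theorem t_A2 : S_A2 := by
  intro F _ _ Φ hΦ
  obtain ⟨C, hC⟩ := kernel_le Φ hΦ
  refine ⟨C, fun s hs hs2 => ?_⟩
  have h1 := hC s hs hs2
  have h2 : Sm F (fun v => Φ (ClassGroup.mk0 (pI v)) = 1) s =
      ∑' v : Pr F, (if Φ (ClassGroup.mk0 ⟨v.asIdeal, mem_nonZeroDivisors_of_ne_zero v.ne_bot⟩) = 1 then
      ((Ideal.absNorm v.asIdeal : ℕ) : ℝ) ^ (-s) else 0) := by
    unfold Sm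
    refine tsum_congr fun v => ?_
    by_cases h : Φ (ClassGroup.mk0 (pI v)) = 1
    · have h' : Φ (ClassGroup.mk0 ⟨v.asIdeal, mem_nonZeroDivisors_of_ne_zero v.ne_bot⟩) = 1 := h
      rw [if_pos h, if_pos h']
    · have h' : ¬ Φ (ClassGroup.mk0 ⟨v.asIdeal, mem_nonZeroDivisors_of_ne_zero v.ne_bot⟩) = 1 := h
      rw [if_neg h, if_neg h']
  rw [h2]
  exact h1

end Pool.Agent.K1H90.CC
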