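import Pool.Agent.K1H90.CC.Zt
import Pool.Agent.R362.HkCls

/-! # Dirichlet sums over the prime ideals: cubic class characters (T1 of K1H79/RF) -/

set_option autoImplicit false
set_option linter.unusedSectionVars false

open NumberField Complex Filter Topology Ideal IsDedekindDomain CohNT
open scoped nonZeroDivisors

namespace Pool.Agent.K1H90.CC

open Pool.Agent.Y773 Pool.Agent.Y773.G Pool.Agent.Y772.DK Pool.Agent.R362.HL

variable {F : Type} [Field F] [NumberField F]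

/-- the values -/
noncomputable def ch (x : Multiplicative (ZMod 3)) : ℂ := ZMod.stdAddChar (N := 3) (Multiplicative.toAdd x)

lemma ch_one : ch 1 = 1 := by
  unfold ch
  rw [toAdd_one, AddChar.map_zero_eq_one]

lemma ch_mul (x y : Multiplicative (ZMod 3)) : ch (x * y) = ch x * ch y := by
  unfold ch
  rw [toAdd_mul, AddChar.map_add_eq_mul]

lemma ch_norm (x : Multiplicative (ZMod 3)) : ‖ch x‖ = 1 := by
  unfold ch
  rw [ZMod.stdAddChar_apply]
  exact Circle.norm_coe _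

lemma ch_cube (x : Multiplicative (ZMod 3)) : ch x ^ 3 = 1 := by
  have h : x * x * x = 1 := by
    revert x
    decide
  rw [← ch_one, ← h, ch_mul, ch_mul]
  ring

lemma ch_re (x : Multiplicative (ZMod 3)) : 1 + 2 * (ch x).re = if x = 1 then 3 else 0 := by
  split_ifs with h
  · rw [h, ch_one, one_re]
    norm_num
  · have h1 : ch x ≠ 1 := by
      intro h2
      apply h
      rw [← ch_one] at h2
      unfold ch at h2
      have h3 := ZMod.injective_stdAddChar (N := 3) h2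
      exact h3
    have h2 : ch x ^ 2 + ch x + 1 = 0 := by
      have h3 : (ch x - 1) * (ch x ^ 2 + ch x + 1) = 0 := by
        have := ch_cube x
        linear_combination this
      rcases mul_eq_zero.1 h3 with h4 | h4
      · exact absurd (sub_eq_zero.1 h4) h1
      · exact h4
    have h4 : ch x * (starRingEnd ℂ) (ch x) = 1 := by
      rw [Complex.mul_conj, Complex.normSq_eq_norm_sq, ch_norm]
      norm_num
    have h5 : (starRingEnd ℂ) (ch x) = ch x ^ 2 := by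
      have h6 := ch_cube x
      calc (starRingEnd ℂ) (ch x) = ch x ^ 3 * (starRingEnd ℂ) (ch x) := by rw [h6, one_mul]
        _ = ch x ^ 2 * (ch x * (starRingEnd ℂ) (ch x)) := by ring
        _ = ch x ^ 2 := by rw [h4, mul_one]
    have h6 : ch x + (starRingEnd ℂ) (ch x) = -1 := by
      rw [h5]
      linear_combination h2
    have h7 := congrArg Complex.re h6
    rw [Complex.add_re, Complex.conj_re] at h7
    simp at h7
    linarith

open Classical in
/-- the character of the ideals -/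
noncomputable def ps (Φ : ClassGroup (𝓞 F) →* Multiplicative (ZMod 3)) : Ideal (𝓞 F) →*₀ ℂ where
  toFun 𝔞 := if h : 𝔞 = ⊥ then 0 else
    ch (Φ (ClassGroup.mk0 ⟨𝔞, mem_nonZeroDivisors_of_ne_zero h⟩))
  map_zero' := by simp
  map_one' := by
    have h1 : (1 : Ideal (𝓞 F)) ≠ ⊥ := by
      rw [Ideal.one_eq_top]
      exact top_ne_bot
    rw [dif_neg h1]
    have h2 : (⟨1, mem_nonZeroDivisors_of_ne_zero h1⟩ : (Ideal (𝓞 F))⁰) = 1 := rfl
    rw [h2, map_one, map_one, ch_one]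
  map_mul' 𝔞 𝔟 := by
    by_cases h1 : 𝔞 = ⊥
    · simp [h1]
    · by_cases h2 : 𝔟 = ⊥
      · simp [h2]
      · have h3 : 𝔞 * 𝔟 ≠ ⊥ := by
          rw [Ne, Ideal.mul_eq_bot]
          tauto
        rw [dif_neg h1, dif_neg h2, dif_neg h3, ← ch_mul, ← map_mul, ← map_mul]
        rfl

lemma ps_apply (Φ : ClassGroup (𝓞 F) →* Multiplicative (ZMod 3)) (I : (Ideal (𝓞 F))⁰) :
    ps Φ (I : Ideal (𝓞 F)) = ch (Φ (ClassGroup.mk0 I)) := by
  classical
  have h : (I : Ideal (𝓞 F)) ≠ ⊥ := nonZeroDivisors.ne_zero I.2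
  show (if h : (I : Ideal (𝓞 F)) = ⊥ then (0 : ℂ) else _) = _
  rw [dif_neg h]

lemma ps_apply' (Φ : ClassGroup (𝓞 F) →* Multiplicative (ZMod 3)) {𝔞 : Ideal (𝓞 F)} (h : 𝔞 ≠ ⊥) :
    ps Φ 𝔞 = ch (Φ (ClassGroup.mk0 ⟨𝔞, mem_nonZeroDivisors_of_ne_zero h⟩)) :=
  ps_apply Φ ⟨𝔞, mem_nonZeroDivisors_of_ne_zero h⟩

lemma ps_norm (Φ : ClassGroup (𝓞 F) →* Multiplicative (ZMod 3)) (𝔞 : Ideal (𝓞 F)) : ‖ps Φ 𝔞‖ ≤ 1 := by
  by_cases h : 𝔞 = ⊥
  · rw [h, ← Ideal.zero_eq_bot, map_zero, norm_zero]; exact zero_le_one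
  · rw [ps_apply' Φ h, ch_norm]

lemma isRay_ps (Φ : ClassGroup (𝓞 F) →* Multiplicative (ZMod 3)) :
    IsRay (⊤ : Ideal (𝓞 F)) (fun _ => 0) (ps Φ) where
  ne_bot := top_ne_bot
  sig_le := fun _ => Nat.zero_le _
  cpx := fun _ _ => rfl
  supp := fun 𝔞 h => by
    refine ⟨fun _ => ?_, fun _ => ?_⟩
    · rw [← Ideal.one_eq_top]
      exact isCoprime_one_right
    · rw [ps_apply' Φ h]
      intro h0
      have := ch_norm (Φ (ClassGroup.mk0 ⟨𝔞, mem_nonZeroDivisors_of_ne_zero h⟩))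
      rw [h0, norm_zero] at this
      exact zero_ne_one this
  sig := fun x hx _ => by
    have h1 : Ideal.span {x} ≠ ⊥ := by
      rw [Ne, Ideal.span_singleton_eq_bot]
      exact hx
    rw [ps_apply' Φ h1]
    have h2 : ClassGroup.mk0 (⟨Ideal.span {x}, mem_nonZeroDivisors_of_ne_zero h1⟩ : (Ideal (𝓞 F))⁰) = 1 := by
      rw [ClassGroup.mk0_eq_one_iff]
      exact ⟨⟨x, rfl⟩⟩
    rw [h2, map_one, ch_one]
    unfold signs
    simp
  prim := fun 𝔤 h1 h2 => by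
    exfalso
    apply h2
    rw [← Ideal.one_eq_top] at h1 ⊢
    exact isUnit_iff_eq_one.1 (isUnit_of_dvd_one h1)

/-- the L-function is bounded -/
theorem LI_bdd (Φ : ClassGroup (𝓞 F) →* Multiplicative (ZMod 3)) (hΦ : Φ ≠ 1) :
    ∃ C : ℝ, ∀ s : ℝ, 1 < s → s ≤ 2 → ‖LI (ps Φ) (s : ℂ)‖ ≤ C := by
  obtain ⟨-, X, hX⟩ := (isRay_ps Φ).xi
  have hr : rayPole (ps Φ) = 0 := by
    unfold rayPole
    rw [if_neg]
    intro h1
    apply hΦ
    refine MonoidHom.ext fun c => ?_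
    rw [MonoidHom.one_apply]
    obtain ⟨I, rfl⟩ := ClassGroup.mk0_surjective (R := 𝓞 F) c
    have h2 := h1 (I : Ideal (𝓞 F)) (nonZeroDivisors.ne_zero I.2)
    rw [ps_apply] at h2
    have h3 := ch_re (Φ (ClassGroup.mk0 I))
    rw [h2, one_re] at h3
    by_contra h4
    rw [if_neg h4] at h3
    norm_num at h3
  rw [hr] at hX
  obtain ⟨R, hR⟩ : ∃ R : ℝ, R = rayCond (⊤ : Ideal (𝓞 F)) := ⟨_, rfl⟩
  rw [← hR] at hX
  have hR0 : (R : ℂ) ≠ 0 := by
    have := hX.one_le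
    exact_mod_cast (by linarith : (R : ℝ) ≠ 0)
  set W : ℂ → ℂ := fun s => X s * ((R : ℂ) ^ (-(s / 2)) * ∏ φ : F →+* ℂ,
    (Complex.Gammaℝ (s + ex (fun _ : InfinitePlace F => 0) φ))⁻¹) with hW
  have hWd : Differentiable ℂ W := by
    refine hX.diff.mul (Differentiable.mul ?_ ?_)
    · exact Differentiable.const_cpow (by fun_prop) (Or.inl hR0)
    · refine Differentiable.fun_finsetProd fun φ _ => ?_
      exact differentiable_Gammaℝ_inv.comp (differentiable_id.add_const _)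
  have hWc : Continuous fun s : ℝ => W (s : ℂ) := hWd.continuous.comp Complex.continuous_ofReal
  obtain ⟨C, hC⟩ := isCompact_Icc.exists_bound_of_continuousOn (s := Set.Icc (1 : ℝ) 2) hWc.continuousOn
  refine ⟨C, fun s hs hs2 => ?_⟩
  have h1 := hC s ⟨hs.le, hs2⟩
  have h2 : W (s : ℂ) = LI (ps Φ) (s : ℂ) := by
    rw [hW]
    simp only
    rw [hX.eq (s : ℂ) (by rw [ofReal_re]; exact hs), pow_zero, one_mul, Finset.prod_inv_distrib, Complex.cpow_neg]
    have h3 : (R : ℂ) ^ ((s : ℂ) / 2) ≠ 0 := by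
      rw [Ne, Complex.cpow_eq_zero_iff]
      exact fun h => hR0 h.1
    have h4 : ∏ φ : F →+* ℂ, Complex.Gammaℝ ((s : ℂ) + ex (fun _ : InfinitePlace F => 0) φ) ≠ 0 := by
      refine Finset.prod_ne_zero_iff.2 fun φ _ => ?_
      apply Complex.Gammaℝ_ne_zero_of_re_pos
      rw [Complex.add_re, Complex.ofReal_re, Complex.natCast_re]
      positivity
    field_simp
  rw [← h2]
  exact h1

/-- the kernel of a cubic class character -/
theorem kernel_le (Φ : ClassGroup (𝓞 F) →* Multiplicative (ZMod 3)) (hΦ : Φ ≠ 1) :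
    ∃ C : ℝ, ∀ s : ℝ, 1 < s → s ≤ 2 →
    3 * (∑' v : Pr F, (if Φ (ClassGroup.mk0 ⟨v.asIdeal, mem_nonZeroDivisors_of_ne_zero v.ne_bot⟩) = 1 then
      ((absNorm v.asIdeal : ℕ) : ℝ) ^ (-s) else 0)) ≤ Real.log (1 / (s - 1)) + C := by
  obtain ⟨C1, hC1⟩ := all_primes F
  obtain ⟨C2, hC2⟩ := LI_bdd Φ hΦ
  refine ⟨C1 + 2 * (|Real.log C2| + DF F), fun s hs hs2 => ?_⟩
  have h1 := hC1 s hs hs2
  have h2 := log_norm (ps Φ) (ps_norm Φ) hs
  have h3 := Real.log_le_log h2.1 (hC2 s hs hs2)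
  have hsv := summable_v F hs
  have hsr : Summable fun v : Pr F => (ps Φ v.asIdeal).re * ((absNorm v.asIdeal : ℕ) : ℝ) ^ (-s) := by
    refine Summable.of_norm_bounded hsv fun v => ?_
    rw [norm_mul, Real.norm_of_nonneg (Real.rpow_nonneg (Nat.cast_nonneg _) _)]
    calc ‖(ps Φ v.asIdeal).re‖ * ((absNorm v.asIdeal : ℕ) : ℝ) ^ (-s) ≤ 1 * ((absNorm v.asIdeal : ℕ) : ℝ) ^ (-s) := by
          refine mul_le_mul_of_nonneg_right ?_ (Real.rpow_nonneg (Nat.cast_nonneg _) _)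
          exact (Complex.abs_re_le_norm _).trans (ps_norm Φ _)
      _ = _ := one_mul _
  have h4 : 3 * (∑' v : Pr F, (if Φ (ClassGroup.mk0 ⟨v.asIdeal, mem_nonZeroDivisors_of_ne_zero v.ne_bot⟩) = 1 then
      ((absNorm v.asIdeal : ℕ) : ℝ) ^ (-s) else 0)) =
      ∑' v : Pr F, ((absNorm v.asIdeal : ℕ) : ℝ) ^ (-s) +
        2 * ∑' v : Pr F, (ps Φ v.asIdeal).re * ((absNorm v.asIdeal : ℕ) : ℝ) ^ (-s) := by
    rw [← tsum_mul_left, ← tsum_mul_left, ← hsv.tsum_add (hsr.mul_left 2)]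
    refine tsum_congr fun v => ?_
    rw [ps_apply' Φ v.ne_bot]
    have h5 := ch_re (Φ (ClassGroup.mk0 ⟨v.asIdeal, mem_nonZeroDivisors_of_ne_zero v.ne_bot⟩))
    split_ifs at h5 ⊢ with h6
    · linear_combination (-((absNorm v.asIdeal : ℕ) : ℝ) ^ (-s)) * h5
    · linear_combination (-((absNorm v.asIdeal : ℕ) : ℝ) ^ (-s)) * h5
  rw [h4]
  have h5 := le_abs_self (Real.log C2)
  have h6 := abs_le.1 h1
  have h7 := abs_le.1 h2.2
  linarith [h6.1, h6.2, h7.1, h7.2]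

end Pool.Agent.K1H90.CC
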