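import Pool.Agent.Y772.DK.Main
import Pool.Agent.H604C.Base

/-! # Dirichlet sums over the prime ideals: the prime powers (T1 of K1H79/RF) -/

set_option autoImplicit false

open NumberField Complex Filter Topology Ideal IsDedekindDomain CohNT

namespace Pool.Agent.K1H90.CC

open Pool.Agent.Y773 Pool.Agent.Y772.DK

variable (F : Type) [Field F] [NumberField F]

lemma two_le_norm (v : Pr F) : 2 ≤ absNorm v.asIdeal := by
  have h1 := absNorm_pos' (K := F) v.ne_bot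
  have h2 : absNorm v.asIdeal ≠ 1 := by
    rw [Ne, absNorm_eq_one_iff]
    exact v.isPrime.ne_top
  omega

open Classical in
/-- the norms of the prime powers with exponent at least two -/
noncomputable def fq (𝔞 : Ideal (𝓞 F)) : ℝ :=
  if IsPrimePow 𝔞 ∧ ¬ Prime 𝔞 then ((absNorm 𝔞 : ℕ) : ℝ)⁻¹ else 0

lemma fq_nonneg (𝔞 : Ideal (𝓞 F)) : 0 ≤ fq F 𝔞 := by
  unfold fq
  split_ifs
  · positivity
  · exact le_rfl

/-- the prime powers -/
noncomputable def gq (x : Pr F × ℕ) : Ideal (𝓞 F) := x.1.asIdeal ^ (x.2 + 2)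

lemma gq_inj : Function.Injective (gq F) := by
  rintro ⟨v, k⟩ ⟨w, l⟩ h
  unfold gq at h
  simp only at h
  have hv : Prime v.asIdeal := v.prime
  have hw : Prime w.asIdeal := w.prime
  have h1 : v.asIdeal ∣ w.asIdeal ^ (l + 2) := by
    rw [← h]
    exact dvd_pow_self _ (by omega)
  have h2 : v.asIdeal = w.asIdeal := associated_iff_eq.1 (hv.associated_of_dvd hw (hv.dvd_of_dvd_pow h1))
  have h3 : v = w := HeightOneSpectrum.ext h2
  subst h3
  have h4 : k + 2 = l + 2 := pow_injective_of_not_isUnit hv.not_isUnit hv.ne_zero h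
  rw [show k = l by omega]

lemma fq_zero (𝔞 : Ideal (𝓞 F)) (h : 𝔞 ∉ Set.range (gq F)) : fq F 𝔞 = 0 := by
  unfold fq
  rw [if_neg]
  rintro ⟨⟨P, k, hP, hk, rfl⟩, h2⟩
  apply h
  have hk1 : k ≠ 1 := by
    rintro rfl
    rw [pow_one] at h2
    exact h2 hP
  refine ⟨(⟨P, isPrime_of_prime hP, hP.ne_zero⟩, k - 2), ?_⟩
  unfold gq
  simp only
  rw [show k - 2 + 2 = k by omega]

lemma asIdeal_inj : Function.Injective (fun v : Pr F => v.asIdeal) := fun _ _ h => HeightOneSpectrum.ext h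

lemma summable_v {σ : ℝ} (hσ : 1 < σ) : Summable fun v : Pr F => ((absNorm v.asIdeal : ℕ) : ℝ) ^ (-σ) :=
  (nr_summable F hσ).comp_injective (asIdeal_inj F)

lemma fq_summable : Summable (fq F) := by
  rw [← (gq_inj F).summable_iff (fq_zero F)]
  have h1 := (summable_v F (σ := 2) (by norm_num)).mul_of_nonneg
    (summable_geometric_of_lt_one (r := (1 / 2 : ℝ)) (by norm_num) (by norm_num))
    (fun v => by positivity) (fun k => by positivity)
  refine Summable.of_nonneg_of_le (fun x => fq_nonneg F _) (fun x => ?_) h1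
  obtain ⟨v, k⟩ := x
  have hv := two_le_norm F v
  have hv' : (2 : ℝ) ≤ ((absNorm v.asIdeal : ℕ) : ℝ) := by exact_mod_cast hv
  simp only [Function.comp_apply]
  unfold fq
  split_ifs
  · unfold gq
    simp only
    rw [map_pow, Nat.cast_pow, pow_add, mul_inv, mul_comm]
    rw [Real.rpow_neg (by linarith), show (2 : ℝ) = ((2 : ℕ) : ℝ) by norm_num, Real.rpow_natCast]
    refine mul_le_mul_of_nonneg_left ?_ (by positivity)
    rw [one_div, inv_pow]
    refine inv_anti₀ (by positivity) ?_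
    exact pow_le_pow_left₀ (by norm_num) (by exact_mod_cast hv) k
  · positivity

/-- the constant -/
noncomputable def DF : ℝ := ∑' 𝔞 : Ideal (𝓞 F), fq F 𝔞

lemma DF_nonneg : 0 ≤ DF F := tsum_nonneg fun 𝔞 => fq_nonneg F 𝔞

variable {F}

/-- the terms at the primes -/
lemma ee_prime (ψ : Ideal (𝓞 F) →*₀ ℂ) {P : Ideal (𝓞 F)} (hP : Prime P) : ee ψ P = ψ P := by
  unfold ee
  have h1 := VM_pow hP (k := 1) one_ne_zero
  rw [pow_one] at h1
  have h2 : (1 : ℝ) < ((absNorm P : ℕ) : ℝ) := by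
    have := two_le_norm F ⟨P, isPrime_of_prime hP, hP.ne_zero⟩
    have h3 : 2 ≤ absNorm P := this
    exact_mod_cast h3
  rw [h1, div_self (Real.log_pos h2).ne', ofReal_one, one_mul]

section main

variable (ψ : Ideal (𝓞 F) →*₀ ℂ) (hψ : ∀ 𝔞, ‖ψ 𝔞‖ ≤ 1)

include hψ

open Classical in
/-- `log L` is the sum over the primes up to `O(1)` -/
theorem log_prime {s : ℝ} (hs : 1 < s) :
    ‖LA (ee ψ) (s : ℂ) - ∑' v : Pr F, ψ v.asIdeal * ((absNorm v.asIdeal : ℕ) : ℂ) ^ (-(s : ℂ))‖ ≤ DF F := by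
  have hs' : 1 < ((s : ℝ) : ℂ).re := by rw [ofReal_re]; exact hs
  set t : Ideal (𝓞 F) → ℂ := fun 𝔞 => ee ψ 𝔞 * ((absNorm 𝔞 : ℕ) : ℂ) ^ (-(s : ℂ)) with ht
  have hsum : Summable t := (term_summable (ee_zero ψ) (ee_le ψ hψ) hs').of_norm
  set t1 : Ideal (𝓞 F) → ℂ := fun 𝔞 => if Prime 𝔞 then t 𝔞 else 0 with ht1
  set t2 : Ideal (𝓞 F) → ℂ := fun 𝔞 => if Prime 𝔞 then 0 else t 𝔞 with ht2
  have hle1 : ∀ 𝔞, ‖t1 𝔞‖ ≤ ‖t 𝔞‖ := by
    intro 𝔞
    rw [ht1]
    simp only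
    split_ifs
    · exact le_rfl
    · rw [norm_zero]; exact norm_nonneg _
  have hle2 : ∀ 𝔞, ‖t2 𝔞‖ ≤ ‖t 𝔞‖ := by
    intro 𝔞
    rw [ht2]
    simp only
    split_ifs
    · rw [norm_zero]; exact norm_nonneg _
    · exact le_rfl
  have hs1 : Summable t1 := Summable.of_norm_bounded hsum.norm hle1
  have hs2 : Summable t2 := Summable.of_norm_bounded hsum.norm hle2
  have h12 : LA (ee ψ) (s : ℂ) = (∑' 𝔞, t1 𝔞) + ∑' 𝔞, t2 𝔞 := by
    rw [← hs1.tsum_add hs2]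
    unfold LA
    refine tsum_congr fun 𝔞 => ?_
    rw [ht1, ht2]
    simp only
    split_ifs
    · rw [add_zero]
    · rw [zero_add]
  have h1 : ∑' 𝔞, t1 𝔞 = ∑' v : Pr F, ψ v.asIdeal * ((absNorm v.asIdeal : ℕ) : ℂ) ^ (-(s : ℂ)) := by
    rw [← (asIdeal_inj F).tsum_eq (f := t1)]
    · refine tsum_congr fun v => ?_
      rw [ht1]
      simp only
      rw [if_pos v.prime, ht]
      simp only
      rw [ee_prime ψ v.prime]
    · intro 𝔞 h𝔞
      by_contra h3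
      apply h𝔞
      rw [ht1]
      simp only
      rw [if_neg]
      intro hP
      exact h3 ⟨⟨𝔞, isPrime_of_prime hP, hP.ne_zero⟩, rfl⟩
  rw [h12, h1, add_sub_cancel_left]
  refine tsum_of_norm_bounded (fq_summable F).hasSum fun 𝔞 => ?_
  rw [ht2]
  simp only
  split_ifs with hP
  · rw [norm_zero]; exact fq_nonneg F 𝔞
  · rw [ht]
    simp only
    by_cases h0 : 𝔞 = 0
    · rw [h0, ee_zero, zero_mul, norm_zero]
      exact fq_nonneg F _
    by_cases hpp : IsPrimePow 𝔞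
    · unfold fq
      rw [if_pos ⟨hpp, hP⟩, norm_mul, Complex.norm_natCast_cpow_of_pos (absNorm_pos' h0), neg_re, ofReal_re]
      have h3 : (1 : ℝ) ≤ ((absNorm 𝔞 : ℕ) : ℝ) := by exact_mod_cast absNorm_pos' h0
      calc ‖ee ψ 𝔞‖ * ((absNorm 𝔞 : ℕ) : ℝ) ^ (-s) ≤ 1 * ((absNorm 𝔞 : ℕ) : ℝ) ^ (-(1 : ℝ)) :=
            mul_le_mul (ee_le ψ hψ 𝔞) (Real.rpow_le_rpow_of_exponent_le h3 (by linarith)) (by positivity) zero_le_one
        _ = _ := by rw [one_mul, Real.rpow_neg (by linarith), Real.rpow_one]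
    · unfold ee
      rw [VM_of_not hpp, zero_div, ofReal_zero, zero_mul, zero_mul, norm_zero]
      exact fq_nonneg F _

/-- the size of `L` -/
theorem log_norm {s : ℝ} (hs : 1 < s) : 0 < ‖LI ψ (s : ℂ)‖ ∧
    |Real.log ‖LI ψ (s : ℂ)‖ - ∑' v : Pr F, (ψ v.asIdeal).re * ((absNorm v.asIdeal : ℕ) : ℝ) ^ (-s)| ≤ DF F := by
  have hs' : 1 < ((s : ℝ) : ℂ).re := by rw [ofReal_re]; exact hs
  have h1 := log_prime ψ hψ hs
  rw [LI_eq_exp ψ hψ hs', Complex.norm_exp, Real.log_exp]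
  refine ⟨Real.exp_pos _, ?_⟩
  have hsum : Summable fun v : Pr F => ψ v.asIdeal * ((absNorm v.asIdeal : ℕ) : ℂ) ^ (-(s : ℂ)) := by
    have h2 : Summable fun 𝔞 : Ideal (𝓞 F) => ψ 𝔞 * ((absNorm 𝔞 : ℕ) : ℂ) ^ (-(s : ℂ)) :=
      (term_summable (a := fun 𝔞 => ψ 𝔞) (map_zero ψ) hψ hs').of_norm
    exact h2.comp_injective (asIdeal_inj F)
  have h2 : ∑' v : Pr F, (ψ v.asIdeal).re * ((absNorm v.asIdeal : ℕ) : ℝ) ^ (-s) =
      (∑' v : Pr F, ψ v.asIdeal * ((absNorm v.asIdeal : ℕ) : ℂ) ^ (-(s : ℂ))).re := by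
    rw [Complex.re_tsum hsum]
    refine tsum_congr fun v => ?_
    have h3 : ((absNorm v.asIdeal : ℕ) : ℂ) ^ (-(s : ℂ)) = ((((absNorm v.asIdeal : ℕ) : ℝ) ^ (-s) : ℝ) : ℂ) := by
      rw [Complex.ofReal_cpow (Nat.cast_nonneg _), ofReal_natCast, ofReal_neg]
    rw [h3, Complex.re_mul_ofReal]
  rw [h2, ← Complex.sub_re]
  exact (Complex.abs_re_le_norm _).trans h1

end main

end Pool.Agent.K1H90.CC
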