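import Pool.Agent.K1H90.CC.Pk

/-! # Dirichlet sums over the prime ideals: all primes (T1 of K1H79/RF) -/

set_option autoImplicit false

open NumberField Complex Filter Topology Ideal IsDedekindDomain CohNT

namespace Pool.Agent.K1H90.CC

open Pool.Agent.Y773 Pool.Agent.Y772.DK

variable (F : Type) [Field F] [NumberField F]

open Classical in
/-- the trivial character of the ideals -/
noncomputable def tr : Ideal (𝓞 F) →*₀ ℂ where
  toFun 𝔞 := if 𝔞 = ⊥ then 0 else 1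
  map_zero' := by simp
  map_one' := by
    rw [Ideal.one_eq_top, if_neg]
    exact top_ne_bot
  map_mul' 𝔞 𝔟 := by
    by_cases h1 : 𝔞 = ⊥
    · simp [h1]
    · by_cases h2 : 𝔟 = ⊥
      · simp [h2]
      · have h3 : 𝔞 * 𝔟 ≠ ⊥ := by
          rw [Ne, Ideal.mul_eq_bot]
          tauto
        simp [h1, h2, h3]

variable {F}

lemma tr_apply {𝔞 : Ideal (𝓞 F)} (h : 𝔞 ≠ ⊥) : tr F 𝔞 = 1 := by
  classical
  show (if 𝔞 = ⊥ then (0 : ℂ) else 1) = 1
  rw [if_neg h]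

lemma tr_bot : tr F (⊥ : Ideal (𝓞 F)) = 0 := by
  rw [← Ideal.zero_eq_bot, map_zero]

lemma tr_norm (𝔞 : Ideal (𝓞 F)) : ‖tr F 𝔞‖ ≤ 1 := by
  by_cases h : 𝔞 = ⊥
  · rw [h, tr_bot, norm_zero]; exact zero_le_one
  · rw [tr_apply h, norm_one]

/-- the Dedekind zeta function -/
lemma LI_tr {s : ℂ} (hs : 1 < s.re) : LI (tr F) s = dedekindZeta F s := by
  have h1 := Pool.Agent.H484R2.hasSum_ideals F hs
  rw [← Pool.Agent.H484R2.zeta_eq F hs] at h1
  have h2 : ∑' I : ({𝔞 : Ideal (𝓞 F) | 𝔞 ≠ ⊥} : Set (Ideal (𝓞 F))),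
      tr F I.1 * ((Ideal.absNorm I.1 : ℕ) : ℂ) ^ (-s) = LI (tr F) s := by
    refine tsum_subtype_eq_of_support_subset (f := fun 𝔞 : Ideal (𝓞 F) => tr F 𝔞 * ((Ideal.absNorm 𝔞 : ℕ) : ℂ) ^ (-s))
      fun 𝔞 h𝔞 => ?_
    intro h0
    apply h𝔞
    show tr F 𝔞 * _ = 0
    rw [h0, tr_bot, zero_mul]
  rw [← h2, ← h1.tsum_eq]
  refine tsum_congr fun I => ?_
  rw [tr_apply I.2, one_mul]

/-- `log ζ(s) = log (1 / (s - 1)) + O(1)` -/
lemma zeta_size (F : Type) [Field F] [NumberField F] : ∃ C : ℝ, ∀ s : ℝ, 1 < s → s ≤ 2 →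
    |Real.log ‖LI (tr F) (s : ℂ)‖ + Real.log (s - 1)| ≤ C := by
  obtain ⟨r, hr⟩ : ∃ r : ℝ, r = dedekindZeta_residue F := ⟨_, rfl⟩
  have hr0 : 0 < r := by rw [hr]; exact dedekindZeta_residue_pos F
  have h1 := (tendsto_sub_one_mul_dedekindZeta_nhdsGT F).norm
  rw [← hr, Complex.norm_real, Real.norm_of_nonneg hr0.le] at h1
  have h2 : ∀ᶠ s : ℝ in 𝓝[>] 1, ‖((s : ℂ) - 1) * dedekindZeta F s‖ ∈ Set.Ioo (r / 2) (2 * r) :=
    h1.eventually (Ioo_mem_nhds (by linarith) (by linarith))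
  rw [eventually_nhdsWithin_iff, Metric.eventually_nhds_iff] at h2
  obtain ⟨δ, hδ, h2⟩ := h2
  obtain ⟨S, hS⟩ : ∃ S : ℝ, S = ∑' 𝔞 : Ideal (𝓞 F), nr F (1 + δ) 𝔞 := ⟨_, rfl⟩
  have hS0 : 0 ≤ S := by rw [hS]; exact tsum_nonneg fun 𝔞 => nr_nonneg F _ 𝔞
  refine ⟨|Real.log (r / 2)| + |Real.log (2 * r)| + S + |Real.log δ|, fun s hs hs2 => ?_⟩
  have hs' : 1 < ((s : ℝ) : ℂ).re := by rw [ofReal_re]; exact hs
  have hpos := (log_norm (tr F) tr_norm hs).1
  have hs0 : 0 < s - 1 := by linarith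
  have a1 := abs_nonneg (Real.log (r / 2))
  have a2 := abs_nonneg (Real.log (2 * r))
  have a3 := abs_nonneg (Real.log δ)
  rcases lt_or_ge (s - 1) δ with h | h
  · have h3 := h2 (y := s) (by rw [Real.dist_eq, abs_of_pos hs0]; exact h) hs
    have h4 : ‖((s : ℂ) - 1)‖ = s - 1 := by
      rw [show ((s : ℂ) - 1) = ((s - 1 : ℝ) : ℂ) by push_cast; ring, Complex.norm_real, Real.norm_of_nonneg hs0.le]
    rw [norm_mul, h4, ← LI_tr hs'] at h3
    rw [add_comm, ← Real.log_mul hs0.ne' hpos.ne']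
    have h5 := Real.log_lt_log (by linarith) h3.1
    have h6 := Real.log_lt_log (mul_pos hs0 hpos) h3.2
    rw [abs_le]
    constructor
    · have := neg_abs_le (Real.log (r / 2))
      linarith
    · have := le_abs_self (Real.log (2 * r))
      linarith
  · have h3 : |Real.log ‖LI (tr F) (s : ℂ)‖| ≤ S := by
      rw [LI_eq_exp (tr F) tr_norm hs', Complex.norm_exp, Real.log_exp, hS]
      refine (Complex.abs_re_le_norm _).trans ?_
      refine LA_le (ee_zero _) (ee_le _ tr_norm) (by linarith) ?_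
      rw [ofReal_re]
      linarith
    have h4 : |Real.log (s - 1)| ≤ |Real.log δ| := by
      have h5 : Real.log (s - 1) ≤ 0 := Real.log_nonpos hs0.le (by linarith)
      have h6 : Real.log δ ≤ Real.log (s - 1) := Real.log_le_log hδ h
      rw [abs_of_nonpos h5, abs_of_nonpos (h6.trans h5)]
      linarith
    calc |Real.log ‖LI (tr F) (s : ℂ)‖ + Real.log (s - 1)| ≤ |Real.log ‖LI (tr F) (s : ℂ)‖| + |Real.log (s - 1)| :=
          abs_add_le _ _
      _ ≤ _ := by linarith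

/-- all primes -/
theorem all_primes (F : Type) [Field F] [NumberField F] : ∃ C : ℝ, ∀ s : ℝ, 1 < s → s ≤ 2 →
    |∑' v : Pr F, ((absNorm v.asIdeal : ℕ) : ℝ) ^ (-s) - Real.log (1 / (s - 1))| ≤ C := by
  obtain ⟨C, hC⟩ := zeta_size F
  refine ⟨C + DF F, fun s hs hs2 => ?_⟩
  have h1 := (log_norm (tr F) tr_norm hs).2
  have h2 := hC s hs hs2
  have h3 : ∑' v : Pr F, (tr F v.asIdeal).re * ((absNorm v.asIdeal : ℕ) : ℝ) ^ (-s) =
      ∑' v : Pr F, ((absNorm v.asIdeal : ℕ) : ℝ) ^ (-s) := by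
    refine tsum_congr fun v => ?_
    rw [tr_apply v.ne_bot, one_re, one_mul]
  rw [h3] at h1
  rw [one_div, Real.log_inv]
  rw [abs_le] at h1 h2 ⊢
  constructor <;> linarith [h1.1, h1.2, h2.1, h2.2]

end Pool.Agent.K1H90.CC
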